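import Pool.Agent.TH183.SC.Main

/-! Splitting points: the classes with one irrational coefficient on the blow-ups in any large
number of points. -/

set_option autoImplicit false

namespace Pool.Agent.TH183.SC

open Pool.Agent.TH181.NagM Pool.Agent.H350R3 Pool.Agent.H350R3.GR

theorem mult_ones (n : ℕ) : Mult n 1 (List.replicate n 1) := by
  induction n with
  | zero => exact Mult.right 1
  | succ n ih =>
    rw [List.replicate_succ]
    refine Mult.big _ 1 _ one_pos (by omega) ?_
    rw [Nat.add_sub_cancel]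
    exact ih

/-- the class `w H - (w / j) (E_1 + ... + E_{j ^ 2})` is nef -/
theorem nf_square {j : ℕ} (hj : 1 ≤ j) {w : ℝ} (hw : 0 < w) :
    NB.Nf ℂ (List.replicate (j ^ 2) (w / j)).get w := by
  have hj' : (1 : ℝ) ≤ j := by exact_mod_cast hj
  have h1 := Pool.Agent.TH545.Nag.nf_mv (A := j ^ 2) (B := 1) (by positivity) one_pos
    (mult_ones (j ^ 2)) (by
      have h := Rv.mul (n := 1) j hj (by linarith)
      rw [mul_one] at h
      have e : (((j ^ 2 : ℕ) : ℝ)) / ((1 : ℕ) : ℝ) = (j : ℝ) ^ 2 := by push_cast; ring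
      rw [e]
      exact h)
  have h2 := nf_list_scale (a := w / j) (by positivity) h1
  have e1 : (List.map (fun t => w / (j : ℝ) * t)
      (List.map (fun m : ℕ => (m : ℝ)) (List.replicate (j ^ 2) 1))) =
      List.replicate (j ^ 2) (w / j) := by
    rw [List.map_replicate, List.map_replicate]
    simp
  have e2 : w / (j : ℝ) * Real.sqrt ((j ^ 2 : ℕ) * (1 : ℕ)) = w := by
    have : Real.sqrt ((j ^ 2 : ℕ) * (1 : ℕ)) = j := by
      push_cast
      rw [mul_one, Real.sqrt_sq (by linarith)]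
    rw [this]
    field_simp
  rw [e1, e2] at h2
  exact h2

/-- rational weights for `n` points -/
def Wts (k : ℕ) (θ C R : ℝ) (S : ℚ) (n : ℕ) : Prop :=
  ∃ L : List ℚ, L.length = n ∧ (∀ q ∈ L, 0 < q) ∧ (L.map fun q => q ^ 2).sum = S ∧
    NB.Nf ℂ (List.replicate k θ ++ L.map fun q : ℚ => (q : ℝ)).get C ∧
    NB.Nf ℂ (L.map fun q : ℚ => (q : ℝ)).get R

theorem Wts.split {k : ℕ} {θ C R : ℝ} {S : ℚ} (hθ : 0 < θ) {n j : ℕ} (hj : 1 ≤ j) (hn : 1 ≤ n)
    (h : Wts k θ C R S n) : Wts k θ C R S (n - 1 + j ^ 2) := by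
  obtain ⟨L, h1, h2, h3, h4, h5⟩ := h
  obtain ⟨w, L', rfl⟩ := List.exists_cons_of_length_pos (l := L) (by omega)
  have hw : 0 < w := h2 w (by simp)
  have hwR : (0 : ℝ) < w := by exact_mod_cast hw
  have hjR : (1 : ℝ) ≤ j := by exact_mod_cast hj
  have hjQ : (1 : ℚ) ≤ j := by exact_mod_cast hj
  have hcast : (List.replicate (j ^ 2) (w / j) ++ L').map (fun q : ℚ => (q : ℝ)) =
      List.replicate (j ^ 2) ((w : ℝ) / j) ++ L'.map (fun q : ℚ => (q : ℝ)) := by
    rw [List.map_append, List.map_replicate]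
    push_cast
    rfl
  have hL' : ∀ t ∈ L'.map (fun q : ℚ => (q : ℝ)), 0 < t := by
    intro t ht
    obtain ⟨q, hq, rfl⟩ := List.mem_map.1 ht
    exact_mod_cast h2 q (by simp [hq])
  refine ⟨List.replicate (j ^ 2) (w / j) ++ L', ?_, ?_, ?_, ?_, ?_⟩
  · rw [List.length_append, List.length_replicate]
    rw [List.length_cons] at h1
    omega
  · intro q hq
    rcases List.mem_append.1 hq with hq | hq
    · rw [List.eq_of_mem_replicate hq]
      positivity
    · exact h2 q (by simp [hq])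
  · rw [← h3, List.map_append, List.sum_append, List.map_replicate, List.sum_replicate,
      List.map_cons, List.sum_cons, nsmul_eq_mul]
    push_cast
    field_simp
  · rw [hcast]
    have h6 := nf_list_glue (K := ℂ) (L₁ := List.replicate k θ) (L₂ := L'.map fun q : ℚ => (q : ℝ))
      (L' := List.replicate (j ^ 2) ((w : ℝ) / j)) (w := (w : ℝ)) (c := C)
      (fun t ht => by rw [List.eq_of_mem_replicate ht]; exact hθ) hL' hwR (by
        have e : List.replicate k θ ++ [(w : ℝ)] ++ L'.map (fun q : ℚ => (q : ℝ)) =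
            List.replicate k θ ++ (w :: L').map (fun q : ℚ => (q : ℝ)) := by
          simp
        rw [e]
        exact h4) (nf_square hj hwR)
    rw [List.append_assoc] at h6
    exact h6
  · rw [hcast]
    have h6 := nf_list_glue (K := ℂ) (L₁ := []) (L₂ := L'.map fun q : ℚ => (q : ℝ))
      (L' := List.replicate (j ^ 2) ((w : ℝ) / j)) (w := (w : ℝ)) (c := R)
      (fun t ht => by simp at ht) hL' hwR (by
        have e : [] ++ [(w : ℝ)] ++ L'.map (fun q : ℚ => (q : ℝ)) =
            (w :: L').map (fun q : ℚ => (q : ℝ)) := by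
          simp
        rw [e]
        exact h5) (nf_square hj hwR)
    rw [List.nil_append] at h6
    exact h6

/-- all large numbers of points -/
theorem Wts.all {k : ℕ} {θ C R : ℝ} {S : ℚ} (hθ : 0 < θ) {n : ℕ} (hn : 1 ≤ n)
    (h : Wts k θ C R S n) : ∀ n' : ℕ, n + 16 ≤ n' → Wts k θ C R S n' := by
  have h3 : ∀ m : ℕ, 1 ≤ m → Wts k θ C R S m → ∀ i : ℕ, Wts k θ C R S (m + 3 * i) := by
    intro m hm hW i
    induction i with
    | zero => exact hW
    | succ i ih =>
      have h1 := ih.split hθ (j := 2) (by norm_num) (by omega)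
      have e : m + 3 * i - 1 + 2 ^ 2 = m + 3 * (i + 1) := by omega
      rwa [e] at h1
  have h8 : Wts k θ C R S (n + 8) := by
    have h1 := h.split hθ (j := 3) (by norm_num) hn
    have e : n - 1 + 3 ^ 2 = n + 8 := by omega
    rwa [e] at h1
  have h16 : Wts k θ C R S (n + 16) := by
    have h1 := h8.split hθ (j := 3) (by norm_num) (by omega)
    have e : n + 8 - 1 + 3 ^ 2 = n + 16 := by omega
    rwa [e] at h1
  intro n' hn'
  obtain ⟨i, hi⟩ : ∃ i, n' = n + 16 + i := ⟨n' - (n + 16), by omega⟩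
  have hmod : i % 3 = 0 ∨ i % 3 = 1 ∨ i % 3 = 2 := by omega
  rcases hmod with h0 | h0 | h0
  · have := h3 (n + 16) (by omega) h16 (i / 3)
    have e : n + 16 + 3 * (i / 3) = n' := by omega
    rwa [e] at this
  · have := h3 (n + 8) (by omega) h8 (i / 3 + 3)
    have e : n + 8 + 3 * (i / 3 + 3) = n' := by omega
    rwa [e] at this
  · have := h3 n hn h (i / 3 + 6)
    have e : n + 3 * (i / 3 + 6) = n' := by omega
    rwa [e] at this

/-- the weights for `θ` at `k` points and `w i` at the others -/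
noncomputable def clw (k : ℕ) {n : ℕ} (θ : ℝ) (w : Fin n → ℕ) : Fin (k + n) → ℝ :=
  Fin.append (fun _ : Fin k => θ) (fun i : Fin n => (w i : ℝ))

theorem sum_clw {k n : ℕ} (θ : ℝ) (w : Fin n → ℕ) (x : Fin (k + n) → ℝ) :
    ∑ i, clw k θ w i * x i =
    ∑ i : Fin n, (w i : ℝ) * x (Fin.natAdd k i) + θ * ∑ j : Fin k, x (Fin.castAdd n j) := by
  rw [Fin.sum_univ_add]
  unfold clw
  simp only [Fin.append_left, Fin.append_right]
  rw [← Finset.mul_sum, add_comm]

/-- clearing denominators -/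
theorem Wts.nat {k : ℕ} {θ C R : ℝ} {S : ℚ} {n : ℕ} (h : Wts k θ C R S n) :
    ∃ (M : ℕ) (w : Fin n → ℕ), 1 ≤ M ∧ (∀ i, 1 ≤ w i) ∧ ∑ i, (w i : ℚ) ^ 2 = M ^ 2 * S ∧
      NB.Nf ℂ (clw k (M * θ) w) (M * C) ∧ NB.Nf ℂ (fun i => (w i : ℝ)) (M * R) := by
  obtain ⟨L, rfl, h2, h3, h4, h5⟩ := h
  -- the common denominator
  obtain ⟨M, hM, hMd⟩ : ∃ M : ℕ, 1 ≤ M ∧ ∀ i : Fin L.length, (L.get i).den ∣ M := by
    refine ⟨∏ i : Fin L.length, (L.get i).den, ?_, fun i => Finset.dvd_prod_of_mem _ (Finset.mem_univ i)⟩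
    exact Nat.succ_le_of_lt (Finset.prod_pos fun i _ => (L.get i).den_pos)
  have hw : ∀ i : Fin L.length, ∃ w : ℕ, (w : ℚ) = M * L.get i ∧ 1 ≤ w := by
    intro i
    obtain ⟨e, he⟩ := hMd i
    have hpos : 0 < L.get i := h2 _ (List.get_mem L i)
    have hnum : 0 < (L.get i).num := Rat.num_pos.2 hpos
    have he0 : 0 < e := by
      rcases Nat.eq_zero_or_pos e with h0 | h0
      · rw [h0, mul_zero] at he; omega
      · exact h0
    refine ⟨e * (L.get i).num.toNat, ?_, ?_⟩
    · have h6 : (((L.get i).num.toNat : ℕ) : ℚ) = (L.get i).num := by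
        have : (((L.get i).num.toNat : ℕ) : ℤ) = (L.get i).num := Int.toNat_of_nonneg hnum.le
        exact_mod_cast this
      have h7 : L.get i * (L.get i).den = (L.get i).num := Rat.mul_den_eq_num _
      rw [he]
      push_cast
      rw [h6, ← h7]
      ring
    · exact Nat.mul_pos he0 (by omega)
  choose w hw1 hw2 using hw
  have hMR : (0 : ℝ) ≤ M := Nat.cast_nonneg M
  have hwR : ∀ i, (w i : ℝ) = M * ((L.get i : ℚ) : ℝ) := fun i => by
    have := hw1 i
    have h6 : ((w i : ℚ) : ℝ) = ((M * L.get i : ℚ) : ℝ) := by rw [this]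
    push_cast at h6
    exact h6
  refine ⟨M, w, hM, hw2, ?_, ?_, ?_⟩
  · rw [← h3]
    have h6 : (L.map fun q => q ^ 2).sum = ∑ i : Fin L.length, (L.get i) ^ 2 := by
      rw [← List.sum_ofFn]
      congr 1
      conv_lhs => rw [← List.ofFn_get L]
      rw [List.map_ofFn]
      rfl
    rw [h6, Finset.mul_sum]
    refine Finset.sum_congr rfl fun i _ => ?_
    rw [hw1]
    ring
  · have h6 := h4.scale hMR
    refine nf_tr ((appE (List.replicate k θ) (L.map fun q : ℚ => (q : ℝ))).symm.trans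
      ((Equiv.sumCongr (finCongr (List.length_replicate)) (finCongr (List.length_map _))).trans
      finSumFinEquiv)) (fun i => ?_) h6
    obtain ⟨j, rfl⟩ := (appE (List.replicate k θ) (L.map fun q : ℚ => (q : ℝ))).surjective i
    rw [appE_get]
    rcases j with j | j
    · simp [clw]
    · simp [clw, hwR]
  · have h6 := h5.scale hMR
    refine nf_tr (finCongr (List.length_map _)) (fun i => ?_) h6
    rw [hwR]
    simp

/-- the starting weights -/
theorem Wts.base {k n : ℕ} {θ C R : ℝ} (h1 : NB.Nf ℂ (cls k n θ) C)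
    (h2 : NB.Nf ℂ (fun _ : Fin n => (1 : ℝ)) R) : Wts k θ C R n n := by
  refine ⟨List.replicate n 1, List.length_replicate, fun q hq => ?_, ?_, ?_, ?_⟩
  · rw [List.eq_of_mem_replicate hq]; exact one_pos
  · rw [List.map_replicate, List.sum_replicate]
    simp
  · refine nf_tr (finSumFinEquiv.symm.trans ((Equiv.sumCongr
      (finCongr (List.length_replicate (n := k) (a := θ)).symm)
      (finCongr (by simp : n = ((List.replicate n (1 : ℚ)).map fun q : ℚ => (q : ℝ)).length))).trans
      (appE (List.replicate k θ) ((List.replicate n (1 : ℚ)).map fun q : ℚ => (q : ℝ))))) (fun i => ?_) h1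
    simp only [Equiv.trans_apply]
    rw [appE_get]
    refine Fin.addCases (fun j => ?_) (fun j => ?_) i
    · rw [finSumFinEquiv_symm_apply_castAdd]
      simp [cls]
    · rw [finSumFinEquiv_symm_apply_natAdd]
      simp [cls]
  · refine nf_tr (finCongr (by simp : n = ((List.replicate n (1 : ℚ)).map fun q : ℚ => (q : ℝ)).length))
      (fun i => ?_) h2
    simp

end Pool.Agent.TH183.SC
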