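import Pool.Agent.TH545.Nag.Nf
import Pool.Agent.H932R5.Points

/-! Emptiness along one ray of classes of self-intersection zero implies the inequality for all
curves, by counting dimensions. -/

set_option autoImplicit false

namespace Pool.Agent.TH183.SC

open Finset MvPolynomial Pool.Agent.H350R3 Pool.Agent.H932R5

universe u
variable {K : Type u} [Field K]

/-- polynomials with given multiplicities exist if there are few conditions -/
theorem exists_poly {n : ℕ} (v : Fin n → ℕ) (x : Fin n → Fin (1 + 1) → K) (e : ℕ)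
    (h : ∑ i, (v i * (v i + 1) : ℕ) < (e + 1) * (e + 2)) :
    ∃ g : MvPolynomial (Fin (1 + 1)) K, g ≠ 0 ∧ (∀ i, g ∈ pt (x i) ^ v i) ∧
      ∀ α, coeff α g ≠ 0 → Finsupp.degree α ≤ e := by
  by_contra hcon
  have hE : EmptyAt (E := 1) v x e := by
    intro f hf hd
    by_contra hf0
    exact hcon ⟨f, hf0, mem_Z.1 hf, fun α hα => hd α hα⟩
  have h1 := hE.finrank
  obtain ⟨a, ha, -, ha2⟩ := finrank_aux e v x
  rw [h1, add_zero] at ha2
  have h2 : ∀ j : ℕ, (j + 1).choose (1 + 1) * 2 = j * (j + 1) := by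
    intro j
    rw [Nat.choose_two_right, Nat.add_sub_cancel, mul_comm j (j + 1)]
    exact Nat.div_mul_cancel (by rw [mul_comm]; exact (Nat.even_mul_succ_self j).two_dvd)
  have h3 : (∑ i, (v i + 1).choose (1 + 1)) * 2 = ∑ i, v i * (v i + 1) := by
    rw [sum_mul]
    exact sum_congr rfl fun i _ => h2 _
  have h4 := h2 (e + 1)
  rw [← ha2] at h4
  have h5 : (e + 1) * (e + 1 + 1) = (e + 1) * (e + 2) := rfl
  omega

/-- from one ray to all classes -/
theorem nf_of_ray {n : ℕ} {t : Fin n → ℝ} {c : ℝ} (hc : 0 < c)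
    (hsq : ∑ i, t i ^ 2 ≤ c ^ 2)
    (hray : ∀ y : ℕ, 1 ≤ y → ∃ (w : Fin n → ℕ) (d : ℕ) (x : Fin n → Fin (1 + 1) → K),
      (∀ i, (w i : ℝ) ≤ y * t i + 1) ∧ c * y ≤ d + 1 ∧ NB.Emp w x d) :
    NB.Nf K t c := by
  intro w d hd
  have hd0 : (0 : ℝ) ≤ d := Nat.cast_nonneg d
  obtain ⟨δ, hδ⟩ : ∃ δ : ℝ, δ = ∑ i, t i * (w i : ℝ) - c * d := ⟨_, rfl⟩
  have hδ0 : 0 < δ := by rw [hδ]; linarith
  obtain ⟨W, hW⟩ : ∃ W : ℝ, W = ∑ i, (w i : ℝ) ^ 2 := ⟨_, rfl⟩
  have hW0 : 0 ≤ W := by rw [hW]; positivity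
  -- a multiple of the ray
  obtain ⟨Y, hY⟩ := exists_nat_gt ((W + 1) / δ + (d + 1) / c)
  have hY1 : (W + 1) / δ < Y := by
    have : 0 ≤ ((d : ℝ) + 1) / c := by positivity
    linarith
  have hY2 : (d + 1) / c < Y := by
    have : 0 ≤ (W + 1) / δ := by positivity
    linarith
  rw [div_lt_iff₀ hδ0] at hY1
  rw [div_lt_iff₀ hc] at hY2
  have hYpos : (0 : ℝ) < Y := by
    by_contra h0
    push Not at h0
    nlinarith
  -- the constant in the linear term
  obtain ⟨C, hC⟩ : ∃ C : ℝ, C = ∑ i, (3 * |Y * t i - w i| + 2) := ⟨_, rfl⟩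
  obtain ⟨z, hz⟩ := exists_nat_gt (C + 1)
  have hC0 : 0 ≤ C := by rw [hC]; positivity
  have hz1 : (1 : ℝ) < z := by linarith
  have hzN : 1 ≤ z := by
    by_contra h0
    have : z = 0 := by omega
    subst this
    simp at hz1
    linarith
  have hYN : 1 ≤ Y := by
    by_contra h0
    have : Y = 0 := by omega
    subst this
    simp at hYpos
  obtain ⟨w0, d0, x, hw0, hd0', hE⟩ := hray (Y * z) (Nat.mul_pos hYN hzN)
  refine ⟨x, fun f hf hfd => ?_⟩
  by_contra hf0
  have hzd : z * d ≤ d0 := by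
    have h1 : ((z * d : ℕ) : ℝ) < ((d0 + 1 : ℕ) : ℝ) := by
      push_cast at hd0' ⊢
      nlinarith
    have h2 : z * d < d0 + 1 := by exact_mod_cast h1
    omega
  obtain ⟨e, he⟩ := Nat.exists_eq_add_of_le hzd
  -- the count
  have hcount : ∑ i, ((w0 i - z * w i) * (w0 i - z * w i + 1) : ℕ) < (e + 1) * (e + 2) := by
    have h1 : ∀ i, (((w0 i - z * w i) * (w0 i - z * w i + 1) : ℕ) : ℝ) ≤
        (z : ℝ) ^ 2 * (Y * t i - w i) ^ 2 + z * (3 * |Y * t i - w i| + 2) := by
      intro i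
      have habs : Y * t i - w i ≤ |Y * t i - w i| := le_abs_self _
      have habs0 : 0 ≤ |Y * t i - w i| := abs_nonneg _
      rcases le_or_gt (w0 i) (z * w i) with h | h
      · rw [Nat.sub_eq_zero_of_le h, zero_mul, Nat.cast_zero]
        positivity
      · have h2 : ((w0 i - z * w i : ℕ) : ℝ) = (w0 i : ℝ) - z * w i := by
          rw [Nat.cast_sub h.le]; push_cast; ring
        have h3 : (0 : ℝ) ≤ (w0 i : ℝ) - z * w i := by
          rw [← h2]; exact Nat.cast_nonneg _
        have h4 : (w0 i : ℝ) - z * w i ≤ z * (Y * t i - w i) + 1 := by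
          have := hw0 i
          push_cast at this
          linarith
        rw [Nat.cast_mul, Nat.cast_add, Nat.cast_one, h2]
        have h5 : ((w0 i : ℝ) - z * w i) * ((w0 i : ℝ) - z * w i + 1) ≤
            (z * (Y * t i - w i) + 1) * (z * (Y * t i - w i) + 1 + 1) :=
          mul_le_mul h4 (by linarith) (by linarith) (by linarith)
        refine h5.trans ?_
        have h6 : z * (Y * t i - w i) ≤ z * |Y * t i - w i| :=
          mul_le_mul_of_nonneg_left habs (by linarith)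
        nlinarith
    have h2 : ((∑ i, ((w0 i - z * w i) * (w0 i - z * w i + 1) : ℕ) : ℕ) : ℝ) ≤
        (z : ℝ) ^ 2 * ∑ i, (Y * t i - w i) ^ 2 + z * C := by
      rw [Nat.cast_sum, hC, mul_sum, mul_sum, ← sum_add_distrib]
      exact sum_le_sum fun i _ => h1 i
    have h3 : ∑ i, (Y * t i - w i) ^ 2 = Y ^ 2 * ∑ i, t i ^ 2 - 2 * Y * ∑ i, t i * (w i : ℝ) + W := by
      rw [hW, mul_sum, mul_sum, ← sum_sub_distrib, ← sum_add_distrib]
      exact sum_congr rfl fun i _ => by ring
    have h4 : ∑ i, t i * (w i : ℝ) = δ + c * d := by rw [hδ]; ring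
    rw [h4] at h3
    -- the right-hand side
    have h5 : (z : ℝ) * (c * Y - d) ≤ e + 1 := by
      have : (d0 : ℝ) = z * d + e := by rw [he]; push_cast; ring
      push_cast at hd0'
      rw [this] at hd0'
      nlinarith
    have h6 : (0 : ℝ) ≤ z * (c * Y - d) := by
      have : 0 ≤ c * Y - d := by linarith
      positivity
    have h7 : ((z : ℝ) * (c * Y - d)) ^ 2 ≤ ((e : ℝ) + 1) * (e + 2) := by nlinarith
    have h8 : (z : ℝ) ^ 2 * ∑ i, (Y * t i - w i) ^ 2 + z * C < ((e : ℝ) + 1) * (e + 2) := by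
      refine lt_of_lt_of_le ?_ h7
      rw [h3]
      have h9 : (Y : ℝ) ^ 2 * ∑ i, t i ^ 2 ≤ Y ^ 2 * c ^ 2 :=
        mul_le_mul_of_nonneg_left hsq (by positivity)
      have h10 : (z : ℝ) * C < z ^ 2 * 1 := by
        have : C < z := by linarith
        nlinarith
      have h11 : (1 : ℝ) ≤ 2 * Y * δ + (d : ℝ) ^ 2 - W := by nlinarith
      have h12 : (z : ℝ) ^ 2 * 1 ≤ z ^ 2 * (2 * Y * δ + (d : ℝ) ^ 2 - W) :=
        mul_le_mul_of_nonneg_left h11 (by positivity)
      have h13 : (z : ℝ) ^ 2 * (Y ^ 2 * ∑ i, t i ^ 2) ≤ z ^ 2 * (Y ^ 2 * c ^ 2) :=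
        mul_le_mul_of_nonneg_left h9 (by positivity)
      nlinarith
    have h9 : (((∑ i, ((w0 i - z * w i) * (w0 i - z * w i + 1) : ℕ) : ℕ)) : ℝ) <
        (((e + 1) * (e + 2) : ℕ) : ℝ) := by
      push_cast at h2 h8 ⊢
      exact lt_of_le_of_lt h2 h8
    exact_mod_cast h9
  obtain ⟨g, hg0, hg, hgd⟩ := exists_poly (fun i => w0 i - z * w i) x e hcount
  have hfg : g * f ^ z = 0 := by
    refine hE _ (fun i => ?_) fun α hα => ?_
    · have h1 : g * f ^ z ∈ pt (x i) ^ (w0 i - z * w i) * pt (x i) ^ (z * w i) := by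
        refine Ideal.mul_mem_mul (hg i) ?_
        rw [mul_comm z, pow_mul]
        exact Ideal.pow_mem_pow (hf i) z
      rw [← pow_add] at h1
      exact Ideal.pow_le_pow_right (by omega) h1
    · have h1 : (g * f ^ z).totalDegree ≤ d0 := by
        refine (totalDegree_mul _ _).trans ?_
        have h2 : g.totalDegree ≤ e := by
          refine Finset.sup_le fun s hs => ?_
          exact hgd s (mem_support_iff.1 hs)
        have h3 : f.totalDegree ≤ d := by
          refine Finset.sup_le fun s hs => ?_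
          exact hfd s (mem_support_iff.1 hs)
        have h4 : (f ^ z).totalDegree ≤ z * d := (totalDegree_pow _ _).trans (Nat.mul_le_mul_left z h3)
        omega
      have h2 := le_totalDegree (mem_support_iff.2 hα)
      have h3 : Finsupp.degree α = α.sum fun _ e => e := rfl
      rw [h3]
      omega
  rcases mul_eq_zero.1 hfg with h | h
  · exact hg0 h
  · exact hf0 (pow_eq_zero_iff (by omega) |>.1 h)

end Pool.Agent.TH183.SC
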