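import Pool.Agent.TH183.SC.Tri
import Pool.Agent.TH183.SC.Nf

/-! The nef classes `c s H - s √N (E_1 + ... + E_k) - (E_{k+1} + ... + E_{k+n})`,
`n = (c ^ 2 - k N) s ^ 2`. -/

set_option autoImplicit false

namespace Pool.Agent.TH183.SC

open Finset Pool.Agent.TH181.NagM Pool.Agent.H350R3
open Pool.Agent.TH176.Nag (Emp Reg)

/-- `c ^ 2 / N` is the sum of `k` and of a number from which the class of `K = c ^ 2 - k N` is
reached -/
theorem moves {N c k K : ℕ} (hN : 1 ≤ N) (hcN : N ≤ c) (hK : 1 ≤ K) (hc : c ^ 2 = k * N + K)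
    (h : Mv 0 1 0 (N : ℝ)) : Mv 0 1 0 ((k : ℝ) + K / N) ∧ ∃ s0 : ℕ, 1 ≤ s0 ∧ ∀ s : ℕ, s0 ≤ s →
      Mv (-(k : ℝ)) ((k : ℝ) + K / N) 0 ((s : ℝ) ^ 2 * K) := by
  have hN' : (0 : ℝ) < N := by exact_mod_cast hN
  have hK' : (0 : ℝ) < K := by exact_mod_cast hK
  have hcR : (c : ℝ) ^ 2 = k * N + K := by exact_mod_cast hc
  constructor
  · have h1 := Rv.div hN' c (hN.trans hcN) (by exact_mod_cast hcN)
    have e : (k : ℝ) + K / N = (c : ℝ) ^ 2 / N := by
      rw [hcR]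
      field_simp
    rw [e]
    exact h.trans h1
  · obtain ⟨s0, h1, h2⟩ := Mv_cls (M := N * K) (D := K) (Nat.mul_pos hN hK) hK
    refine ⟨s0, h1, fun s hs => ?_⟩
    have h3 := Mv.toRT (μ := -(k : ℝ)) (ν := (k : ℝ) + K / N) (by
      have : 0 < (K : ℝ) / N := by positivity
      linarith)
    have e1 : -(k : ℝ) + ((k : ℝ) + K / N) = K / N := by ring
    rw [e1] at h3
    have h4 := Rv.mul (n := (K : ℝ) / N) N hN (by
      have : (N : ℝ) * (K / N) = K := by field_simp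
      rw [this]
      exact_mod_cast hK)
    have e2 : (N : ℝ) ^ 2 * (K / N) = ((N * K : ℕ) : ℝ) := by
      push_cast
      field_simp
    rw [e2] at h4
    exact h3.trans (h4.trans (h2 s hs))

/-- the second part of the cut triangle is empty -/
theorem partTwo {n k K s m : ℕ} {ρ h : ℝ} (hρ : 0 < ρ) (hh : 0 < h) (hs : 1 ≤ s) (hK : 1 ≤ K)
    (hn : n = K * s ^ 2) (hMv : Mv (-(k : ℝ)) ((k : ℝ) + ρ) 0 ((s : ℝ) ^ 2 * K))
    (hm : h * √ρ < √n * m) (α : ℝ) :
    Emp (fun _ : Fin n => m) (Reg α (α + h * ρ) (-k) (k + ρ)) := by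
  have hn0 : (0 : ℝ) < n := by
    have : 0 < n := by rw [hn]; positivity
    exact_mod_cast this
  have hsn : 0 < √(n : ℝ) := Real.sqrt_pos.2 hn0
  have hss : √(n : ℝ) ^ 2 = n := Real.sq_sqrt hn0.le
  let sz : (Fin n → ℕ) → ℝ := fun w => (∑ j, (w j : ℝ)) / √(n : ℝ)
  have hsz : ∀ (k : ℕ) (w : Fin n → ℕ), sz (fun i => k * w i) = k * sz w := by
    intro k w
    simp only [sz]
    rw [← mul_div_assoc, Finset.mul_sum]
    congr 1
    exact Finset.sum_congr rfl fun j _ => by push_cast; ring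
  have hfin : Shp (fun w S => Emp w S) sz 0 ((s : ℝ) ^ 2 * K) := by
    intro w E hE hEw α
    apply Pool.Agent.TH819.NagA.Emp_final w _ _ _ _ le_rfl (by positivity)
    · rw [Fintype.card_fin, hn]
      push_cast
      ring
    · have e : (0 : ℝ) + (s : ℝ) ^ 2 * K = n := by rw [hn]; push_cast; ring
      rw [e]
      simp only [sz] at hEw
      rw [lt_div_iff₀ hsn] at hEw
      linarith
  have h1 : Shp (fun w S => Emp w S) sz (-(k : ℝ)) ((k : ℝ) + ρ) :=
    hMv.closed (NagSys.Emp.closed hsz) hfin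
  have hsρ : 0 < √ρ := Real.sqrt_pos.2 hρ
  have h2 := h1 (fun _ => m) (h * √ρ) (by positivity) (by
    simp only [sz, sum_const, card_univ, Fintype.card_fin, nsmul_eq_mul]
    rw [lt_div_iff₀ hsn]
    calc h * √ρ * √(n : ℝ) < √n * m * √n := mul_lt_mul_of_pos_right hm hsn
      _ = √(n : ℝ) ^ 2 * m := by ring
      _ = n * m := by rw [hss]) α
  have e : h * √ρ * √(-(k : ℝ) + (k + ρ)) = h * ρ := by
    have e1 : -(k : ℝ) + (k + ρ) = ρ := by ring
    rw [e1, mul_assoc, Real.mul_self_sqrt hρ.le]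
  rw [e] at h2
  exact h2

/-- the weights of the class -/
noncomputable def cls (k n : ℕ) (θ : ℝ) : Fin (k + n) → ℝ :=
  Fin.append (fun _ : Fin k => θ) (fun _ : Fin n => 1)

theorem sum_cls {k n : ℕ} (θ : ℝ) (x : Fin (k + n) → ℝ) : ∑ i, cls k n θ i * x i =
    ∑ i : Fin n, x (Fin.natAdd k i) + θ * ∑ j : Fin k, x (Fin.castAdd n j) := by
  rw [Fin.sum_univ_add]
  unfold cls
  simp only [Fin.append_left, Fin.append_right, one_mul]
  rw [← mul_sum, add_comm]

/-- emptiness for one multiple of the class -/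
theorem ray {N c k K s n : ℕ} (hN : 1 ≤ N) (hcN : N ≤ c) (hK : 1 ≤ K) (hk : 1 ≤ k)
    (hc : c ^ 2 = k * N + K) (hs : 1 ≤ s) (hn : n = K * s ^ 2)
    (h1 : Mv 0 1 0 ((k : ℝ) + K / N))
    (h2 : Mv (-(k : ℝ)) ((k : ℝ) + K / N) 0 ((s : ℝ) ^ 2 * K)) {y : ℕ} (hy : 1 ≤ y) :
    Emp (wt (Fin k) (Fin n) (y, ⌊y * (s * √(N : ℝ))⌋₊ + 1))
      {m : ℤ × ℤ | 0 ≤ m.1 ∧ 0 ≤ m.2 ∧ m.1 + m.2 ≤ ((c * s * y - 1 : ℕ) : ℤ)} := by
  have hN' : (0 : ℝ) < N := by exact_mod_cast hN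
  have hK' : (0 : ℝ) < K := by exact_mod_cast hK
  have hc1 : 1 ≤ c := hN.trans hcN
  have hc' : (0 : ℝ) < c := by exact_mod_cast hc1
  have hs' : (0 : ℝ) < s := by exact_mod_cast hs
  have hy' : (1 : ℝ) ≤ y := by exact_mod_cast hy
  have hk' : (0 : ℝ) < k := by exact_mod_cast hk
  have hsN : 0 < √(N : ℝ) := Real.sqrt_pos.2 hN'
  have hsN2 : √(N : ℝ) * √(N : ℝ) = N := Real.mul_self_sqrt hN'.le
  have hcR : (c : ℝ) ^ 2 = k * N + K := by exact_mod_cast hc
  have hρ : 0 < (K : ℝ) / N := by positivity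
  have hτ : (k : ℝ) + K / N = c ^ 2 / N := by
    rw [hcR]
    field_simp
  have hsτ : √((k : ℝ) + K / N) = c / √(N : ℝ) := by
    rw [hτ, Real.sqrt_div (sq_nonneg _), Real.sqrt_sq hc'.le]
  have hsρ : √((K : ℝ) / N) = √K / √(N : ℝ) := Real.sqrt_div hK'.le _
  have hsn : √(n : ℝ) = √K * s := by
    rw [hn]
    push_cast
    rw [Real.sqrt_mul hK'.le, Real.sqrt_sq hs'.le]
  let sz : ℕ × ℕ → ℝ := fun v => min (c * s * v.1) (c / √(N : ℝ) * v.2)
  have hsz : ∀ (j : ℕ) (v : ℕ × ℕ), sz (j * v.1, j * v.2) = j * sz v := by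
    intro j v
    simp only [sz]
    rw [mul_min_of_nonneg _ _ (Nat.cast_nonneg j)]
    push_cast
    congr 1 <;> ring
  have hfin : Shp (fun v S => Emp (wt (Fin k) (Fin n) v) S) sz 0 ((k : ℝ) + K / N) := by
    rintro ⟨m, q⟩ E hE hEw α
    simp only [sz] at hEw
    obtain ⟨hE1, hE2⟩ := lt_min_iff.1 hEw
    obtain ⟨h, hh⟩ : ∃ h : ℝ, h = E * √(N : ℝ) / c := ⟨_, rfl⟩
    have hh0 : 0 < h := by rw [hh]; positivity
    have hm0 : (0 : ℝ) < q := by
      by_contra h0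
      push Not at h0
      have : c / √(N : ℝ) * q ≤ 0 := mul_nonpos_of_nonneg_of_nonpos (by positivity) h0
      linarith
    have e1 : h * (c / √(N : ℝ)) = E := by
      rw [hh]
      field_simp
    have e2 : E * √(0 + ((k : ℝ) + K / N)) = h * (k + K / N) := by
      rw [zero_add, hsτ, hτ, ← e1]
      have : (c : ℝ) ^ 2 / N = (c / √(N : ℝ)) * (c / √(N : ℝ)) := by
        rw [div_mul_div_comm, hsN2, sq]
      rw [this]
      ring
    rw [e2]
    refine cutT hρ ?_ hk (fun α => partTwo hρ hh0 hs hK hn h2 ?_ α) α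
    · rw [hh, div_lt_iff₀ hc']
      have h3 := mul_lt_mul_of_pos_right hE2 hsN
      have h4 : c / √(N : ℝ) * q * √(N : ℝ) = q * c := by
        field_simp
      rw [h4] at h3
      exact h3
    · rw [hsρ, hsn, hh]
      have h3 : E * √(N : ℝ) / c * (√K / √(N : ℝ)) = E / c * √K := by
        field_simp
      rw [h3]
      have hsK : 0 < √(K : ℝ) := Real.sqrt_pos.2 hK'
      have h4 : E / c < s * m := by
        rw [div_lt_iff₀ hc']
        linarith
      calc E / c * √K < s * m * √K := mul_lt_mul_of_pos_right h4 hsK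
        _ = √K * s * m := by ring
  have h3 : Shp (fun v S => Emp (wt (Fin k) (Fin n) v) S) sz 0 1 :=
    h1.closed ((sysPair _ _).closed hsz) hfin
  obtain ⟨q, hq⟩ : ∃ q : ℕ, q = ⌊y * (s * √(N : ℝ))⌋₊ + 1 := ⟨_, rfl⟩
  have hq1 : y * (s * √(N : ℝ)) < q := by
    rw [hq]
    push_cast
    exact Nat.lt_floor_add_one _
  have hcsy : 1 ≤ c * s * y := Nat.mul_pos (Nat.mul_pos hc1 hs) hy
  have hcsy' : (1 : ℝ) ≤ c * s * y := by exact_mod_cast hcsy
  have h4 := h3 (y, q) (c * s * y - 1 / 2) (by linarith) (by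
    simp only [sz]
    refine lt_min (by linarith) ?_
    have h5 : c * s * y = c / √(N : ℝ) * (y * (s * √(N : ℝ))) := by
      field_simp
    have h6 : c / √(N : ℝ) * (y * (s * √(N : ℝ))) < c / √(N : ℝ) * q :=
      mul_lt_mul_of_pos_left hq1 (by positivity)
    linarith) 0
  rw [← hq]
  refine h4.mono ?_
  rintro ⟨a, b⟩ ⟨ha, hb, hab⟩
  simp only at ha hb hab
  refine ⟨hb, ?_, ?_⟩
  · simp only
    have : (0 : ℝ) ≤ a := by exact_mod_cast ha
    linarith
  · simp only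
    have h6 : ((a + b : ℤ) : ℝ) ≤ (((c * s * y - 1 : ℕ) : ℤ) : ℝ) := by exact_mod_cast hab
    have h7 : (((c * s * y - 1 : ℕ) : ℤ) : ℝ) = c * s * y - 1 := by
      rw [Int.cast_natCast, Nat.cast_sub hcsy]
      push_cast
      ring
    rw [h7] at h6
    push_cast at h6
    rw [zero_add (1 : ℝ), Real.sqrt_one]
    linarith

/-- the class is nef -/
theorem nf_cls {N c k K s n : ℕ} (hN : 1 ≤ N) (hcN : N ≤ c) (hK : 1 ≤ K) (hk : 1 ≤ k)
    (hc : c ^ 2 = k * N + K) (hs : 1 ≤ s) (hn : n = K * s ^ 2)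
    (h1 : Mv 0 1 0 ((k : ℝ) + K / N))
    (h2 : Mv (-(k : ℝ)) ((k : ℝ) + K / N) 0 ((s : ℝ) ^ 2 * K)) :
    NB.Nf ℂ (cls k n (s * √(N : ℝ))) (c * s) := by
  have hN' : (0 : ℝ) < N := by exact_mod_cast hN
  have hc1 : 1 ≤ c := hN.trans hcN
  have hc' : (0 : ℝ) < c := by exact_mod_cast hc1
  have hs' : (0 : ℝ) < s := by exact_mod_cast hs
  have hcR : (c : ℝ) ^ 2 = k * N + K := by exact_mod_cast hc
  refine nf_of_ray (by positivity) ?_ fun y hy => ?_
  · have h3 : ∀ x : Fin (k + n) → ℝ, ∑ i, x i ^ 2 = ∑ i, x i * x i := fun x =>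
      Finset.sum_congr rfl fun i _ => sq _
    rw [h3, sum_cls]
    unfold cls
    simp only [Fin.append_left, Fin.append_right, sum_const, card_univ, Fintype.card_fin,
      nsmul_eq_mul, mul_one]
    have h4 : √(N : ℝ) * √(N : ℝ) = N := Real.mul_self_sqrt hN'.le
    have h5 : (n : ℝ) = K * (s : ℝ) ^ 2 := by rw [hn]; push_cast; ring
    rw [h5]
    have h6 : s * √(N : ℝ) * (k * (s * √(N : ℝ))) = k * (s : ℝ) ^ 2 * (√(N : ℝ) * √(N : ℝ)) := by
      ring
    rw [h6, h4, mul_pow, hcR]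
    linarith
  · have h3 := ray hN hcN hK hk hc hs hn h1 h2 hy
    have h4 := Emp_reindex (finSumFinEquiv (m := k) (n := n)).symm h3
    obtain ⟨x, hx⟩ := Pool.Agent.TH545.Nag.nbEmp_of_Emp h4
    refine ⟨_, _, x, fun i => ?_, ?_, hx⟩
    · refine Fin.addCases (fun j => ?_) (fun j => ?_) i
      · rw [finSumFinEquiv_symm_apply_castAdd]
        unfold cls wt
        rw [Fin.append_left, Sum.elim_inl]
        push_cast
        have := Nat.floor_le (a := y * (s * √(N : ℝ))) (by positivity)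
        linarith
      · rw [finSumFinEquiv_symm_apply_natAdd]
        unfold cls wt
        rw [Fin.append_right, Sum.elim_inr]
        linarith
    · have hcsy : 1 ≤ c * s * y := Nat.mul_pos (Nat.mul_pos hc1 hs) hy
      rw [Nat.cast_sub hcsy]
      push_cast
      linarith

end Pool.Agent.TH183.SC
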